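import Pool.Agent.Helper92.FL.Final

/-!
Every generalized torus knot group `⟨a_1, …, a_r | a_i ^ m_i = a_j ^ m_j⟩` is flawed.

Outline. Conjugate the reductive group `G` so that it is self-adjoint and its maximal compact subgroup
`K` consists of its unitary elements. Every closed orbit of `r`-tuples contains a tuple `a` of minimal
norm, unique up to `K`, and the passage to minimal tuples is continuous up to `K`. If `a` is minimal and
satisfies the relations then `c = a_i ^ m_i` commutes with all `a_j`, so the factors of its polar
decomposition `c = k e^X` commute with all `a_j` as well. Dividing `a_i` by `e^(X / m_i)` gives `b_i` with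
`b_i ^ m_i = k`, and `b_i` is conjugate, by the exponential of a matrix `Y_i` which depends continuously
on `b_i` and commutes with `k` and `X`, to a unitary element. The path
`a_i(t) = e^(-t Y_i / 2) e^(-t X / m_i) a_i e^(t Y_i / 2)` satisfies the relations for all `t`.
-/

namespace Pool.Agent.Results.MP_1b2618_al.TorusKnotFlawed

open Pool.Agent.Helper92.FL

/-- every generalized torus knot group is flawed -/
theorem result (r : ℕ) (hr : 1 ≤ r) (m : Fin r → ℕ) (hm : ∀ i, 1 ≤ m i) :
    Flawed (TorusKnotGroup m) :=
  torus_flawed r hr m hm

end Pool.Agent.Results.MP_1b2618_al.TorusKnotFlawed
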